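import Mathlib

namespace Pool.Agent.Results.MP_417677_al.H3
open CoxeterMatrix
open scoped commutatorElement

abbrev W := H₃.Group
noncomputable abbrev cs := H₃.toCoxeterSystem

def rels : List (List (Fin 3) × List (Fin 3)) :=
  [([0, 0], []), ([1, 1], []), ([2, 2], []), ([0, 2], [2, 0]), ([2, 0], [0, 2]),
   ([0, 1, 0], [1, 0, 1]), ([1, 0, 1], [0, 1, 0]), ([1, 2, 1, 2, 1], [2, 1, 2, 1, 2]),
   ([2, 1, 2, 1, 2], [1, 2, 1, 2, 1])]

lemma rels_ok : ∀ p ∈ rels, cs.wordProd p.1 = cs.wordProd p.2 := by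
  have b1 : cs.wordProd [0, 2] = cs.wordProd [2, 0] := cs.wordProd_braidWord_eq 0 2
  have b2 : cs.wordProd [1, 0, 1] = cs.wordProd [0, 1, 0] := cs.wordProd_braidWord_eq 0 1
  have b3 : cs.wordProd [2, 1, 2, 1, 2] = cs.wordProd [1, 2, 1, 2, 1] :=
    cs.wordProd_braidWord_eq 1 2
  have b : ∀ i, cs.wordProd [i, i] = cs.wordProd [] := fun i => by
    rw [cs.wordProd_cons, cs.wordProd_singleton, cs.simple_mul_simple_self, cs.wordProd_nil]
  simp only [rels, List.mem_cons, List.not_mem_nil, or_false, forall_eq_or_imp, forall_eq]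
  exact ⟨b 0, b 1, b 2, b1, b1.symm, b2.symm, b2, b3.symm, b3⟩

def ap (w : List (Fin 3)) (c : ℕ) : List (Fin 3) :=
  match rels[c % 9]? with
  | none => w
  | some p => if w = w.take (c / 9) ++ p.1 ++ w.drop (c / 9 + p.1.length) then
      w.take (c / 9) ++ p.2 ++ w.drop (c / 9 + p.1.length) else w

lemma ap_ok (w : List (Fin 3)) (c : ℕ) : cs.wordProd (ap w c) = cs.wordProd w := by
  unfold ap
  split
  · rfl
  · rename_i p hp
    split_ifs with h
    · conv_rhs => rw [h]
      simp only [cs.wordProd_append, rels_ok p (List.mem_of_getElem? hp)]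
    · rfl

lemma run (l : List ℕ) : ∀ w, l.foldl ap w = [] → cs.wordProd w = 1 := by
  induction l with
  | nil => rintro _ rfl; simp
  | cons c l ih => exact fun w h => (ap_ok w c).symm.trans (ih _ h)

def zw : List (Fin 3) := [0, 1, 2, 0, 1, 2, 0, 1, 2, 0, 1, 2, 0, 1, 2]
noncomputable def z : W := cs.wordProd zw

lemma zz : z * z = 1 := by
  rw [z, ← cs.wordProd_append]
  exact run [22, 76, 5, 59, 25, 58, 71, 105, 120, 126, 12, 94, 51, 66, 40, 23, 77, 43, 76, 89, 118,
    110, 30, 69, 84, 58, 41, 7, 40, 53, 87, 99, 91, 76, 83, 72, 64, 56, 33, 45, 37, 22, 29, 18, 10,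
    2] _ (by decide +kernel)

lemma szsz (i : Fin 3) : cs.simple i * z * (cs.simple i * z) = 1 := by
  rw [z, ← cs.wordProd_cons, ← cs.wordProd_append]
  fin_cases i
  · exact run [0, 126, 40, 94, 23, 77, 43, 76, 89, 118, 110, 30, 69, 84, 58, 41, 7, 40, 53, 87, 99,
      91, 76, 83, 72, 64, 56, 33, 45, 37, 22, 29, 18, 10, 2] _ (by decide +kernel)
  · exact run [6, 21, 27, 67, 50, 16, 3, 49, 62, 42, 57, 31, 14, 96, 111, 85, 68, 34, 67, 80, 114,
      126, 118, 103, 110, 99, 91, 83, 60, 72, 64, 49, 56, 45, 37, 29, 18, 10, 2] _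
      (by decide +kernel)
  · exact run [4, 58, 112, 41, 95, 61, 48, 94, 17, 51, 66, 77, 97, 128, 84, 40, 53, 33, 48, 22, 5,
      87, 102, 76, 59, 25, 58, 71, 105, 120, 126, 12, 94, 51, 66, 40, 23, 77, 43, 76, 89, 118, 110,
      30, 69, 84, 58, 41, 7, 40, 53, 87, 99, 91, 76, 83, 72, 64, 56, 33, 45, 37, 22, 29, 18, 10, 2]
      _ (by decide +kernel)

lemma zc (w : W) : Commute w z := by
  refine cs.simple_induction (p := fun w => Commute w z) w (fun i => ?_) (Commute.one_left z)
    fun _ _ => Commute.mul_left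
  have := eq_inv_of_mul_eq_one_left (szsz i)
  rwa [mul_inv_rev, cs.inv_simple, inv_eq_of_mul_eq_one_left zz] at this

abbrev D := DihedralGroup 4

lemma lf : H₃.IsLiftable fun i => ((DihedralGroup.r 2, cs.simple i * z) : D × W) := fun i j => by
  have e : cs.simple i * z * (cs.simple j * z) = cs.simple i * cs.simple j := by
    rw [mul_assoc, ← mul_assoc z, ← (zc _).eq, mul_assoc, zz, mul_one]
  have e' : (DihedralGroup.r 2 * DihedralGroup.r 2 : D) = 1 := by decide
  rw [Prod.mk_mul_mk, e, e', Prod.pow_mk, cs.simple_mul_simple_pow, one_pow]; rfl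

noncomputable def f : W →* D × W := cs.lift ⟨_, lf⟩

lemma fs (i : Fin 3) : f (cs.simple i) = (DihedralGroup.r 2, cs.simple i * z) :=
  cs.lift_apply_simple lf i

lemma dich (w : W) : f w = (1, w) ∨ f w = (DihedralGroup.r 2, w * z) := by
  refine cs.simple_induction_left
    (p := fun w => f w = (1, w) ∨ f w = (DihedralGroup.r 2, w * z)) w (Or.inl (map_one f)) fun w i h => ?_
  rw [map_mul, fs]
  rcases h with h | h <;> rw [h, Prod.mk_mul_mk]
  · exact Or.inr (by rw [mul_one, mul_assoc, ← (zc w).eq, mul_assoc])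
  · refine Or.inl (Prod.ext (by dsimp only; decide) ?_)
    simp only
    rw [mul_assoc, ← mul_assoc z, ← (zc _).eq, mul_assoc, zz, mul_one]

lemma fz : f z = (DihedralGroup.r 2, 1) := by
  have : (f z).1 = DihedralGroup.r 2 := by
    simp only [z, zw, cs.wordProd_cons, map_mul, fs, Prod.fst_mul, cs.wordProd_nil, map_one,
      Prod.fst_one]
    decide
  rcases dich z with h | h
  · rw [h] at this; exact absurd this (by decide)
  · rw [h, zz]

lemma odd {G : Type*} [CommGroup G] {x y : G} (hx : x * x = 1) (hy : y * y = 1) (k : ℕ)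
    (h : (x * y) ^ (2 * k + 1) = 1) : x = y := by
  rw [pow_succ, pow_mul, sq, mul_mul_mul_comm, hx, hy, mul_one, one_pow, one_mul] at h
  rw [eq_inv_of_mul_eq_one_left h, inv_eq_of_mul_eq_one_left hy]

lemma sz (i : Fin 3) : cs.simple i * z ∈ commutator W := by
  rw [← Abelianization.ker_of, MonoidHom.mem_ker]
  have q : ∀ i, Abelianization.of (cs.simple i) * Abelianization.of (cs.simple i) = 1 := fun i => by
    rw [← map_mul, cs.simple_mul_simple_self, map_one]
  have a : Abelianization.of (cs.simple 0) = Abelianization.of (cs.simple 1) :=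
    odd (q 0) (q 1) 1 (by rw [← map_mul, ← map_pow]; exact (congrArg _
      (cs.simple_mul_simple_pow 0 1)).trans (map_one _))
  have b : Abelianization.of (cs.simple 2) = Abelianization.of (cs.simple 1) :=
    odd (q 2) (q 1) 2 (by rw [← map_mul, ← map_pow]; exact (congrArg _
      (cs.simple_mul_simple_pow 2 1)).trans (map_one _))
  have c : Abelianization.of (cs.simple i) = Abelianization.of (cs.simple 1) := by
    fin_cases i
    exacts [a, rfl, b]
  have q' : ∀ x, Abelianization.of (cs.simple 1) * (Abelianization.of (cs.simple 1) * x) = x :=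
    fun x => by rw [← mul_assoc, q, one_mul]
  simp only [z, zw, cs.wordProd_cons, map_mul, a, b, c, q', cs.wordProd_nil, map_one]

lemma range_eq : f.range = commutator (D × W) := by
  refine le_antisymm ?_ (Subgroup.commutator_le.2 fun g _ g' _ => ?_)
  · rintro _ ⟨w, rfl⟩
    refine cs.simple_induction (p := fun w => f w ∈ commutator (D × W)) w (fun i => ?_)
      (by simp) fun a b ha hb => by rw [map_mul]; exact mul_mem ha hb
    have e : f (cs.simple i) = ⁅((DihedralGroup.r 1, 1) : D × W), ((DihedralGroup.sr 0, 1) : D × W)⁆ *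
        MonoidHom.inr D W (cs.simple i * z) := by
      rw [fs]
      exact Prod.ext (show (DihedralGroup.r 2 : D) =
        ⁅(DihedralGroup.r 1 : D), (DihedralGroup.sr 0 : D)⁆ * 1 by decide)
        (by simp [commutatorElement_def])
    rw [e]
    refine mul_mem (Subgroup.commutator_mem_commutator (Subgroup.mem_top _) (Subgroup.mem_top _)) ?_
    have := Subgroup.mem_map_of_mem (MonoidHom.inr D W) (sz i)
    rw [commutator_def, Subgroup.map_commutator] at this
    exact Subgroup.commutator_mono le_top le_top this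
  · have k : ∀ p q : D, ⁅p, q⁆ = 1 ∨ ⁅p, q⁆ = DihedralGroup.r 2 := by decide
    have h1 : f ⁅g.2, g'.2⁆ = (1, ⁅g.2, g'.2⁆) := by
      refine (dich _).resolve_right fun h => ?_
      have := congrArg Prod.fst h
      rw [map_commutatorElement] at this
      change ⁅(f g.2).1, (f g'.2).1⁆ = DihedralGroup.r 2 at this
      rcases dich g.2 with a | a <;> rcases dich g'.2 with b | b <;> rw [a, b] at this <;>
        exact absurd this (by dsimp only; decide)
    rcases k g.1 g'.1 with h | h
    · exact ⟨_, h1.trans (Prod.ext h.symm rfl)⟩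
    · refine ⟨⁅g.2, g'.2⁆ * z, ?_⟩
      rw [map_mul, h1, fz, Prod.mk_mul_mk, one_mul, mul_one]
      exact Prod.ext h.symm rfl

theorem result : ∃ (B : Type) (M : CoxeterMatrix B),
    (SimpleGraph.fromRel fun s t => M s t = 0 ∨ 3 ≤ M s t).Connected ∧
    IsEmpty (M.Group ≃* Multiplicative (ZMod 2)) ∧
    ∃ (H : Type) (_ : Group H), Nonempty (commutator H ≃* M.Group) := by
  refine ⟨Fin 3, H₃, by decide, ⟨fun e => ?_⟩, D × W, inferInstance,
    ⟨((MonoidHom.ofInjective (f := f) ((injective_iff_map_eq_one f).2 fun w h => ?_)).trans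
      (MulEquiv.subgroupCongr range_eq)).symm⟩⟩
  · have l : H₃.IsLiftable (![Equiv.swap 0 1 * Equiv.swap 2 3, Equiv.swap 1 4 * Equiv.swap 2 3,
        Equiv.swap 0 2 * Equiv.swap 1 3] : Fin 3 → Equiv.Perm (Fin 5)) := by
      unfold IsLiftable; decide
    have c : cs.simple 0 * cs.simple 1 = cs.simple 1 * cs.simple 0 :=
      e.injective (by rw [map_mul, map_mul, mul_comm])
    have := congrArg (cs.lift ⟨_, l⟩) c
    simp only [map_mul, cs.lift_apply_simple l] at this
    exact absurd this (by decide)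
  · rcases dich w with a | a <;> rw [a] at h
    · exact congrArg Prod.snd h
    · exact absurd (show (DihedralGroup.r 2 : D) = 1 from congrArg Prod.fst h) (by decide)

end Pool.Agent.Results.MP_417677_al.H3
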